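import Pool.Agent.Helper89.Vol5.Goals

/-! # MP_cd13d2_co, project V58, packet COV1 (helper50)

A port of `Pool.Agent.Helper30.Vol4.COV1` to eight points of `E 5`. -/

set_option autoImplicit false

namespace Pool.Agent.Helper50.Vol5.PkCOV1

open MeasureTheory Set Pool.Agent.Helper86.Poly Pool.Agent.Helper89.Vol5

/-- the convex weights of `p` -/
def Lam (x : Fin 8 → E 5) (p : E 5) : Set (Fin 8 → ℝ) :=
  {w | (∀ k, 0 ≤ w k) ∧ ∑ k, w k = 1 ∧ ∑ k, w k • x k = p}

theorem lam_hull {x : Fin 8 → E 5} {p : E 5} {w : Fin 8 → ℝ} (hw : w ∈ Lam x p)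
    (S : Set (Fin 8)) (hS : ∀ k, w k ≠ 0 → k ∈ S) : p ∈ convexHull ℝ (x '' S) := by
  classical
  obtain ⟨h0, h1, h2⟩ := hw
  have e1 : ∑ k ∈ Finset.univ.filter (fun k => w k ≠ 0), w k = 1 := by
    rw [Finset.sum_filter_ne_zero, h1]
  have e2 : ∑ k ∈ Finset.univ.filter (fun k => w k ≠ 0), w k • x k = p := by
    rw [← h2, Finset.sum_filter]
    refine Finset.sum_congr rfl fun k _ => ?_
    split_ifs with h
    · rfl
    · rw [not_not] at h
      rw [h, zero_smul]
  rw [← e2]
  refine (convex_convexHull ℝ (x '' S)).sum_mem (fun k _ => h0 k) e1 fun k hk => ?_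
  exact subset_convexHull ℝ _ ⟨k, hS k (Finset.mem_filter.1 hk).2, rfl⟩

theorem lam_nonempty {x : Fin 8 → E 5} {p : E 5} (hp : p ∈ convexHull ℝ (range x)) :
    ∃ w, w ∈ Lam x p := by
  have h := convexHull_range_eq_exists_affineCombination (R := ℝ) x
  rw [h] at hp
  obtain ⟨s, w, h0, h1, h2⟩ := hp
  classical
  refine ⟨fun k => if k ∈ s then w k else 0, fun k => ?_, ?_, ?_⟩
  · show 0 ≤ (if k ∈ s then w k else 0)
    split_ifs with hk
    · exact h0 k hk
    · exact le_refl _
  · rw [Finset.sum_ite_mem, Finset.univ_inter, h1]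
  · rw [← h2, s.affineCombination_eq_linear_combination x w h1]
    simp only [ite_smul, zero_smul]
    rw [Finset.sum_ite_mem, Finset.univ_inter]

theorem lam_compact (x : Fin 8 → E 5) (p : E 5) : IsCompact (Lam x p) := by
  have h1 : IsCompact (stdSimplex ℝ (Fin 8)) := isCompact_stdSimplex ℝ (Fin 8)
  have h2 : Lam x p = stdSimplex ℝ (Fin 8) ∩ {w | ∑ k, w k • x k = p} := by
    ext w
    constructor
    · rintro ⟨a, b, c⟩
      exact ⟨⟨a, b⟩, c⟩
    · rintro ⟨⟨a, b⟩, c⟩
      exact ⟨a, b, c⟩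
  rw [h2]
  refine h1.inter_right (isClosed_eq ?_ continuous_const)
  fun_prop

/-- adding a dependency -/
theorem lam_add {x : Fin 8 → E 5} {p : E 5} {w μ : Fin 8 → ℝ} (hw : w ∈ Lam x p)
    (h1 : ∑ k, μ k = 0) (h2 : ∑ k, μ k • x k = 0) (t : ℝ) (ht : ∀ k, 0 ≤ w k + t * μ k) :
    (fun k => w k + t * μ k) ∈ Lam x p := by
  obtain ⟨a, b, c⟩ := hw
  refine ⟨ht, ?_, ?_⟩
  · rw [Finset.sum_add_distrib, ← Finset.mul_sum, h1, b, mul_zero, add_zero]
  · simp only [add_smul, mul_smul]
    rw [Finset.sum_add_distrib, ← Finset.smul_sum, h2, c, smul_zero, add_zero]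

/-- small steps are possible -/
theorem small {w μ : Fin 8 → ℝ} (h0 : ∀ k, 0 ≤ w k) (h : ∀ k, μ k < 0 → 0 < w k) :
    ∃ t : ℝ, 0 < t ∧ ∀ k, 0 ≤ w k + t * μ k := by
  have h1 : ∀ k : Fin 8, ∃ t : ℝ, 0 < t ∧ ∀ s, 0 < s → s ≤ t → 0 ≤ w k + s * μ k := by
    intro k
    by_cases hk : μ k < 0
    · refine ⟨w k / (-μ k), div_pos (h k hk) (by linarith), fun s hs hs' => ?_⟩
      rw [le_div_iff₀ (by linarith)] at hs'
      linarith
    · refine ⟨1, one_pos, fun s hs _ => ?_⟩
      exact add_nonneg (h0 k) (mul_nonneg hs.le (not_lt.1 hk))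
  choose t ht0 ht using h1
  obtain ⟨k0, -, hk0⟩ := Finset.exists_min_image (Finset.univ : Finset (Fin 8)) t
    ⟨0, Finset.mem_univ _⟩
  exact ⟨t k0, ht0 k0, fun k => ht k (t k0) (ht0 k0) (hk0 k (Finset.mem_univ _))⟩

/-- first order condition at a maximiser -/
theorem fo {x : Fin 8 → E 5} {p : E 5} {w μ : Fin 8 → ℝ} {a : Fin 8} (hw : w ∈ Lam x p)
    (hmax : ∀ w' ∈ Lam x p, w' a ≤ w a)
    (h1 : ∑ k, μ k = 0) (h2 : ∑ k, μ k • x k = 0) (h : ∀ k, μ k < 0 → 0 < w k) :
    μ a ≤ 0 := by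
  obtain ⟨t, ht, ht'⟩ := small hw.1 h
  have h4 := hmax _ (lam_add hw h1 h2 t ht')
  have h3 : t * μ a ≤ 0 := by
    have h5 : w a + t * μ a ≤ w a := h4
    linarith
  by_contra hc
  push Not at hc
  have := mul_pos ht hc
  linarith

/-- the opposite direction -/
theorem fo' {x : Fin 8 → E 5} {p : E 5} {w μ : Fin 8 → ℝ} {a : Fin 8} (hw : w ∈ Lam x p)
    (hmax : ∀ w' ∈ Lam x p, w' a ≤ w a)
    (h1 : ∑ k, μ k = 0) (h2 : ∑ k, μ k • x k = 0) (h : ∀ k, 0 < μ k → 0 < w k) :
    0 ≤ μ a := by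
  have := fo (μ := fun k => - μ k) (a := a) hw hmax
    (by rw [Finset.sum_neg_distrib, h1, neg_zero])
    (by simp only [neg_smul]; rw [Finset.sum_neg_distrib, h2, neg_zero])
    (fun k hk => h k (by linarith))
  linarith

theorem thm : G_COV1 := by
  classical
  intro x D a hanti hne hrow hdep p hp hT
  have hdiag : ∀ i, D i i = 0 := fun i => by
    have := hanti i i
    linarith
  have hdep' : ∀ i, ∑ k, D i k • x k = 0 := by
    intro i
    ext m
    have := hdep i m
    simpa using this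
  -- a maximiser
  obtain ⟨w1, hw1⟩ := lam_nonempty hp
  obtain ⟨w, hw, hmaxO⟩ := (lam_compact x p).exists_isMaxOn ⟨w1, hw1⟩
    (f := fun w : Fin 8 → ℝ => w a) (by fun_prop)
  have hmax : ∀ w' ∈ Lam x p, w' a ≤ w a := fun w' hw' => hmaxO hw'
  have hsum : (Finset.univ.filter (fun k => w k = 0)).card +
      (Finset.univ.filter (fun k => w k ≠ 0)).card = 8 :=
    Finset.card_filter_add_card_filter_not (s := (Finset.univ : Finset (Fin 8)))
      (fun k => w k = 0)
  -- at least two zeros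
  have hle : (Finset.univ.filter (fun k => w k ≠ 0)).card ≤ 6 := by
    by_contra hc
    push Not at hc
    have hz : (Finset.univ.filter (fun k => w k = 0)).card ≤ 1 := by omega
    obtain ⟨i, hi⟩ : ∃ i, ∀ k, k ≠ i → w k ≠ 0 := by
      by_cases he : ∃ i, w i = 0
      · obtain ⟨i, hi⟩ := he
        refine ⟨i, fun k hk h0 => hk ?_⟩
        exact Finset.card_le_one.1 hz k (by simp [h0]) i (by simp [hi])
      · push Not at he
        exact ⟨0, fun k _ => he k⟩
    have hpos : ∀ k, k ≠ i → 0 < w k := fun k hk =>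
      lt_of_le_of_ne (hw.1 k) (hi k hk).symm
    by_cases hia : i = a
    · subst hia
      obtain ⟨j, hj⟩ : ∃ j : Fin 8, j ≠ i := exists_ne i
      rcases lt_or_gt_of_ne (hne j i hj) with h | h
      · -- the entry `a` of `- D j` is positive
        have := fo' (μ := D j) (a := i) hw hmax (hrow j) (hdep' j) fun k hk => hpos k (by
          rintro rfl
          linarith)
        linarith
      · have := fo (μ := D j) (a := i) hw hmax (hrow j) (hdep' j) fun k hk => hpos k (by
          rintro rfl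
          linarith)
        linarith
    · have e1 := fo (μ := D i) (a := a) hw hmax (hrow i) (hdep' i) fun k hk => hpos k (by
        rintro rfl
        rw [hdiag] at hk
        exact lt_irrefl _ hk)
      have e2 := fo' (μ := D i) (a := a) hw hmax (hrow i) (hdep' i) fun k hk => hpos k (by
        rintro rfl
        rw [hdiag] at hk
        exact lt_irrefl _ hk)
      exact hne i a hia (le_antisymm e1 e2)
  have hge : 6 ≤ (Finset.univ.filter (fun k => w k ≠ 0)).card := by
    by_contra hc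
    push Not at hc
    refine hT (Finset.univ.filter (fun k => w k ≠ 0)) (by omega) (lam_hull hw _ ?_)
    intro k hk
    simp [hk]
  have hz : (Finset.univ.filter (fun k => w k = 0)).card = 2 := by omega
  obtain ⟨i0, j0, hij0, hzs⟩ := Finset.card_eq_two.1 hz
  -- order the two
  obtain ⟨i, j, hij, hwi, hwj, hpos, hDij⟩ : ∃ i j, i ≠ j ∧ w i = 0 ∧ w j = 0 ∧
      (∀ k, k ≠ i → k ≠ j → 0 < w k) ∧ 0 < D i j := by
    have hwi : w i0 = 0 := by
      have : i0 ∈ Finset.univ.filter (fun k => w k = 0) := by rw [hzs]; simp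
      simpa using this
    have hwj : w j0 = 0 := by
      have : j0 ∈ Finset.univ.filter (fun k => w k = 0) := by rw [hzs]; simp
      simpa using this
    have hpos : ∀ k, k ≠ i0 → k ≠ j0 → 0 < w k := by
      intro k h1 h2
      refine lt_of_le_of_ne (hw.1 k) fun h0 => ?_
      have : k ∈ Finset.univ.filter (fun k => w k = 0) := by simp [h0.symm]
      rw [hzs] at this
      simp at this
      rcases this with h | h
      · exact h1 h
      · exact h2 h
    rcases lt_or_gt_of_ne (hne i0 j0 hij0) with h | h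
    · exact ⟨j0, i0, hij0.symm, hwj, hwi, fun k h1 h2 => hpos k h2 h1, by
        rw [hanti]; linarith⟩
    · exact ⟨i0, j0, hij0, hwi, hwj, hpos, h⟩
  have f1 : D i a ≤ 0 := by
    refine fo (μ := D i) hw hmax (hrow i) (hdep' i) fun k hk => hpos k ?_ ?_
    · rintro rfl
      rw [hdiag] at hk
      exact lt_irrefl _ hk
    · rintro rfl
      linarith
  have f2 : 0 ≤ D j a := by
    refine fo' (μ := D j) hw hmax (hrow j) (hdep' j) fun k hk => hpos k ?_ ?_
    · rintro rfl
      have := hanti j k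
      linarith
    · rintro rfl
      rw [hdiag] at hk
      exact lt_irrefl _ hk
  have hia : i ≠ a := by
    rintro rfl
    have := hanti j i
    linarith
  have hja : j ≠ a := by
    rintro rfl
    linarith
  have f3 : 0 < D a i := by
    have h1 := lt_of_le_of_ne f1 (hne i a hia)
    have h2 := hanti a i
    linarith
  have f4 : 0 < D j a := lt_of_le_of_ne f2 (hne j a hja).symm
  refine ⟨i, j, f3, f4, hDij, lam_hull hw _ fun k hk => ?_⟩
  constructor
  · rintro rfl
    exact hk hwi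
  · rintro rfl
    exact hk hwj

end Pool.Agent.Helper50.Vol5.PkCOV1
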